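import Mathlib
import Pool.Agent.H94.IC.Targets3

/-!
# Insulating cracks, module NWT: the Newton potential formula
-/

open MeasureTheory Set Filter Topology Metric
open scoped ENNReal NNReal ContDiff RealInnerProductSpace

namespace Pool.Agent.H58.IC

open Pool.Agent.H94.IC

/-- the Laplacian -/
noncomputable def lapl (φ : E → ℝ) (y : E) : ℝ := ∑ k : Fin 3, pd k (pd k φ) y

theorem pd_smooth {φ : E → ℝ} (h : ContDiff ℝ ∞ φ) (k : Fin 3) : ContDiff ℝ ∞ (pd k φ) := by
  have h1 : ContDiff ℝ ∞ (fderiv ℝ φ) := h.fderiv_right (by simp)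
  exact h1.clm_apply contDiff_const

theorem pd_supp {φ : E → ℝ} (h : HasCompactSupport φ) (k : Fin 3) : HasCompactSupport (pd k φ) :=
  h.fderiv_apply (𝕜 := ℝ) (ev k)

theorem lapl_smooth {φ : E → ℝ} (h : ContDiff ℝ ∞ φ) : ContDiff ℝ ∞ (lapl φ) := by
  unfold lapl
  exact ContDiff.sum fun k _ => pd_smooth (pd_smooth h k) k

theorem lapl_supp {φ : E → ℝ} (h : HasCompactSupport φ) : HasCompactSupport (lapl φ) := by
  have h0 := pd_supp (pd_supp h 0) 0
  have h1 := pd_supp (pd_supp h 1) 1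
  have h2 := pd_supp (pd_supp h 2) 2
  have : lapl φ = (pd 0 (pd 0 φ) + pd 1 (pd 1 φ)) + pd 2 (pd 2 φ) := by
    funext y
    simp [lapl, Fin.sum_univ_three]
  rw [this]
  exact (h0.add h1).add h2

theorem pd_trans (φ : E → ℝ) (x : E) (k : Fin 3) : pd k (fun y => φ (x + y)) = fun y => pd k φ (x + y) := by
  funext y
  unfold pd
  rw [fderiv_comp_add_left]

theorem lapl_trans (φ : E → ℝ) (x : E) : lapl (fun y => φ (x + y)) = fun y => lapl φ (x + y) := by
  funext y
  unfold lapl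
  refine Finset.sum_congr rfl fun k _ => ?_
  rw [pd_trans, pd_trans]

/-- the reciprocal of the norm is locally integrable -/
theorem int_inv_norm (R : ℝ) : IntegrableOn (fun y : E => ‖y‖⁻¹) (closedBall 0 R) := by
  have h1 : Integrable (fun y : E => (fun t : ℝ => (Iic R).indicator (fun t => t⁻¹) t) ‖y‖) := by
    rw [integrable_fun_norm_addHaar]
    have hd : Module.finrank ℝ E = 3 := by simp
    rw [hd]
    have h2 : IntegrableOn (fun t : ℝ => (Iic R).indicator (fun t => t) t) (Ioi 0) := by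
      have h3 : IntegrableOn (fun t : ℝ => t) (Ioi 0 ∩ Iic R) := by
        have h4 : Ioi (0 : ℝ) ∩ Iic R = Ioc 0 R := by
          ext t
          simp
        rw [h4]
        exact (continuous_id.integrableOn_Icc (a := 0) (b := R)).mono_set Ioc_subset_Icc_self
      rw [IntegrableOn, integrable_indicator_iff measurableSet_Iic, IntegrableOn, Measure.restrict_restrict measurableSet_Iic,
        inter_comm]
      exact h3
    refine h2.congr_fun (fun t ht => ?_) measurableSet_Ioi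
    have ht' : (0 : ℝ) < t := ht
    by_cases h : t ∈ Iic R
    · simp only [indicator_of_mem h, smul_eq_mul]
      field_simp
    · simp only [indicator_of_notMem h, smul_eq_mul, mul_zero]
  have h5 : IntegrableOn (fun y : E => (fun t : ℝ => (Iic R).indicator (fun t => t⁻¹) t) ‖y‖) (closedBall 0 R) :=
    h1.integrableOn
  refine h5.congr_fun (fun y hy => ?_) isClosed_closedBall.measurableSet
  have hy' : ‖y‖ ∈ Iic R := by simpa using hy
  simp only [indicator_of_mem hy']

theorem int_div_norm {g : E → ℝ} (hc : Continuous g) (hs : HasCompactSupport g) :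
    Integrable (fun y => g y * ‖y‖⁻¹) := by
  obtain ⟨R, hR⟩ := hs.isCompact.isBounded.subset_closedBall (0 : E)
  have h1 : IntegrableOn (fun y : E => g y * ‖y‖⁻¹) (closedBall 0 R) := by
    obtain ⟨C, hC⟩ := hs.exists_bound_of_continuous hc
    exact (int_inv_norm R).bdd_mul hc.aestronglyMeasurable (Eventually.of_forall hC)
  rw [← integrableOn_univ]
  refine h1.of_forall_diff_eq_zero MeasurableSet.univ fun y hy => ?_
  have : g y = 0 := by
    by_contra h
    exact hy.2 (hR (subset_tsupport _ h))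
  rw [this, zero_mul]

/-- the regularised norm -/
noncomputable def rn (ε : ℝ) (y : E) : ℝ := Real.sqrt (‖y‖ ^ 2 + ε ^ 2)

theorem rn_pos {ε : ℝ} (h : 0 < ε) (y : E) : 0 < rn ε y := by
  unfold rn
  positivity

theorem rn_sq (ε : ℝ) (y : E) : rn ε y ^ 2 = ‖y‖ ^ 2 + ε ^ 2 := Real.sq_sqrt (by positivity)

theorem rn_smooth {ε : ℝ} (h : 0 < ε) : ContDiff ℝ ∞ (rn ε) := by
  unfold rn
  refine ContDiff.sqrt ((contDiff_norm_sq ℝ).add contDiff_const) fun y => ?_
  positivity

theorem rn_fd {ε : ℝ} (h : 0 < ε) (y b : E) : fderiv ℝ (rn ε) y b = ⟪y, b⟫ / rn ε y := by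
  have h0 : HasFDerivAt (fun y : E => ‖y‖ ^ 2 + ε ^ 2) (2 • innerSL ℝ y) y :=
    (hasStrictFDerivAt_norm_sq y).hasFDerivAt.add_const _
  have h1 : HasFDerivAt (rn ε) ((1 / (2 * rn ε y)) • (2 • innerSL ℝ y)) y :=
    h0.sqrt (by positivity)
  rw [h1.fderiv]
  simp only [ContinuousLinearMap.smul_apply, innerSL_apply_apply, smul_eq_mul, nsmul_eq_mul]
  have := rn_pos h y
  push_cast
  field_simp

theorem rnp_fd {ε : ℝ} (h : 0 < ε) (y b : E) (n : ℕ) :
    fderiv ℝ (fun y => ((rn ε y)⁻¹) ^ n) y b = - (n : ℝ) * ((rn ε y)⁻¹) ^ (n + 2) * ⟪y, b⟫ := by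
  have hp := rn_pos h y
  have h1 : HasFDerivAt (rn ε) (fderiv ℝ (rn ε) y) y :=
    ((rn_smooth h).differentiable (by simp) y).hasFDerivAt
  have h3 : HasDerivAt (fun t : ℝ => (t⁻¹) ^ n) ((n : ℝ) * ((rn ε y)⁻¹) ^ (n - 1) * (-((rn ε y) ^ 2)⁻¹)) (rn ε y) :=
    (hasDerivAt_inv hp.ne').fun_pow n
  have h4 := h3.comp_hasFDerivAt y h1
  have h5 : fderiv ℝ (fun y : E => ((rn ε y)⁻¹) ^ n) y = _ := h4.fderiv
  rw [h5]
  simp only [ContinuousLinearMap.smul_apply, smul_eq_mul, rn_fd h]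
  rcases n with _ | n
  · simp
  · simp only [Nat.add_sub_cancel]
    have e1 : (rn ε y ^ 2)⁻¹ = (rn ε y)⁻¹ ^ 2 := by rw [inv_pow]
    rw [e1, div_eq_mul_inv]
    push_cast
    ring

theorem hinv_smooth {ε : ℝ} (h : 0 < ε) : ContDiff ℝ ∞ (fun y => (rn ε y)⁻¹) :=
  (rn_smooth h).inv fun y => (rn_pos h y).ne'

theorem lapl_hinv {ε : ℝ} (h : 0 < ε) (y : E) :
    lapl (fun y => (rn ε y)⁻¹) y = - (3 * ε ^ 2 * ((rn ε y)⁻¹) ^ 5) := by
  have key : ∀ k : Fin 3, pd k (pd k (fun y => (rn ε y)⁻¹)) y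
      = 3 * ((rn ε y)⁻¹) ^ 5 * (y k) ^ 2 - ((rn ε y)⁻¹) ^ 3 := by
    intro k
    have ev1 : (pd k (fun y => (rn ε y)⁻¹)) = (fun y => - (((rn ε y)⁻¹) ^ 3 * (y k))) := by
      funext y
      have := rnp_fd h y (ev k) 1
      simp only [pow_one] at this
      unfold pd
      rw [this]
      simp [EuclideanSpace.inner_single_right]
    rw [ev1]
    have hd1 : DifferentiableAt ℝ (fun y : E => ((rn ε y)⁻¹) ^ 3) y :=
      ((hinv_smooth h).pow 3).differentiable (by simp) y
    have hd2 : HasFDerivAt (fun y : E => y k) (EuclideanSpace.proj k : E →L[ℝ] ℝ) y :=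
      (EuclideanSpace.proj k : E →L[ℝ] ℝ).hasFDerivAt
    have h3 := (hd1.hasFDerivAt.mul hd2).neg
    have h4 : fderiv ℝ (fun y : E => - (((rn ε y)⁻¹) ^ 3 * (y k))) y = _ := h3.fderiv
    unfold pd
    rw [h4]
    simp only [ContinuousLinearMap.neg_apply, ContinuousLinearMap.add_apply, ContinuousLinearMap.smul_apply,
      smul_eq_mul, rnp_fd h y (ev k) 3]
    have h5 : ⟪y, ev k⟫ = y k := by simp [EuclideanSpace.inner_single_right]
    rw [h5]
    simp
    ring
  unfold lapl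
  simp only [key]
  have h6 : ∑ k : Fin 3, (y k) ^ 2 = ‖y‖ ^ 2 := by
    rw [EuclideanSpace.norm_sq_eq]
    simp
  rw [Finset.sum_sub_distrib, ← Finset.mul_sum, h6]
  have h7 : ‖y‖ ^ 2 = rn ε y ^ 2 - ε ^ 2 := by
    rw [rn_sq]
    ring
  have hp := rn_pos h y
  rw [h7]
  simp
  field_simp
  ring

/-- integration by parts -/
theorem ibp {f g : E → ℝ} (hf : ContDiff ℝ ∞ f) (hg : ContDiff ℝ ∞ g) (hs : HasCompactSupport f) (k : Fin 3) :
    ∫ y, pd k f y * g y = - ∫ y, f y * pd k g y := by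
  have i1 : Integrable (fun y => fderiv ℝ f y (ev k) * g y) :=
    (((pd_smooth hf k).continuous.mul hg.continuous).integrable_of_hasCompactSupport ((pd_supp hs k).mul_right))
  have i2 : Integrable (fun y => f y * fderiv ℝ g y (ev k)) :=
    ((hf.continuous.mul (pd_smooth hg k).continuous).integrable_of_hasCompactSupport (hs.mul_right))
  have i3 : Integrable (fun y => f y * g y) :=
    ((hf.continuous.mul hg.continuous).integrable_of_hasCompactSupport (hs.mul_right))
  have := integral_mul_fderiv_eq_neg_fderiv_mul_of_integrable (μ := (volume : Measure E)) (v := ev k) i1 i2 i3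
    (fun y _ => hf.differentiable (by simp) y) (fun y _ => hg.differentiable (by simp) y)
  unfold pd
  rw [this, neg_neg]

theorem ibp2 {f g : E → ℝ} (hf : ContDiff ℝ ∞ f) (hg : ContDiff ℝ ∞ g) (hs : HasCompactSupport f) (k : Fin 3) :
    ∫ y, pd k (pd k f) y * g y = ∫ y, f y * pd k (pd k g) y := by
  rw [ibp (pd_smooth hf k) hg (pd_supp hs k) k, ibp hf (pd_smooth hg k) hs k, neg_neg]

theorem ibpl {f g : E → ℝ} (hf : ContDiff ℝ ∞ f) (hg : ContDiff ℝ ∞ g) (hs : HasCompactSupport f) :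
    ∫ y, lapl f y * g y = ∫ y, f y * lapl g y := by
  unfold lapl
  simp only [Finset.sum_mul, Finset.mul_sum]
  rw [integral_finsetSum, integral_finsetSum]
  · exact Finset.sum_congr rfl fun k _ => ibp2 hf hg hs k
  · intro k _
    exact ((hf.continuous.mul (pd_smooth (pd_smooth hg k) k).continuous).integrable_of_hasCompactSupport
      (hs.mul_right))
  · intro k _
    exact (((pd_smooth (pd_smooth hf k) k).continuous.mul hg.continuous).integrable_of_hasCompactSupport
      ((pd_supp (pd_supp hs k) k).mul_right))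

theorem kern_int : Integrable (fun z : E => 3 * ((rn 1 z)⁻¹) ^ 5) ∧ ∫ z : E, 3 * ((rn 1 z)⁻¹) ^ 5 = 4 * Real.pi := by
  have hF : ∀ r : ℝ, HasDerivAt (fun r : ℝ => (r / Real.sqrt (r ^ 2 + 1)) ^ 3)
      (r ^ 2 * (3 * ((Real.sqrt (r ^ 2 + 1))⁻¹) ^ 5)) r := by
    intro r
    have hp : 0 < Real.sqrt (r ^ 2 + 1) := by positivity
    have hq : Real.sqrt (r ^ 2 + 1) ^ 2 = r ^ 2 + 1 := Real.sq_sqrt (by positivity)
    have h1 : HasDerivAt (fun r : ℝ => r ^ 2 + 1) (2 * r) r := by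
      simpa using (hasDerivAt_pow 2 r).add_const 1
    have h2 := h1.sqrt (by positivity)
    have h3 := ((hasDerivAt_id r).fun_div h2 hp.ne').fun_pow 3
    refine h3.congr_deriv ?_
    simp only [id]
    push_cast
    field_simp
    rw [hq]
    ring
  have hlim : Tendsto (fun r : ℝ => (r / Real.sqrt (r ^ 2 + 1)) ^ 3) atTop (𝓝 1) := by
    have h1 : Tendsto (fun r : ℝ => (1 - (r ^ 2 + 1)⁻¹)) atTop (𝓝 (1 - 0)) := by
      refine tendsto_const_nhds.sub ?_
      refine tendsto_inv_atTop_zero.comp ?_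
      exact tendsto_atTop_add_const_right _ _ (tendsto_pow_atTop (by norm_num))
    have h2 : Tendsto (fun r : ℝ => Real.sqrt (1 - (r ^ 2 + 1)⁻¹) ^ 3) atTop (𝓝 (Real.sqrt (1 - 0) ^ 3)) :=
      ((Real.continuous_sqrt.tendsto _).comp h1).pow 3
    simp only [sub_zero, Real.sqrt_one, one_pow] at h2
    refine h2.congr' ?_
    filter_upwards [eventually_gt_atTop 0] with r hr
    congr 1
    have h3 : (1 : ℝ) - (r ^ 2 + 1)⁻¹ = (r / Real.sqrt (r ^ 2 + 1)) ^ 2 := by
      rw [div_pow, Real.sq_sqrt (by positivity)]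
      field_simp
      ring
    rw [h3]
    exact Real.sqrt_sq (by positivity)
  have hnn : ∀ r ∈ Ioi (0 : ℝ), 0 ≤ r ^ 2 * (3 * ((Real.sqrt (r ^ 2 + 1))⁻¹) ^ 5) := by
    intro r _
    positivity
  have hI := integral_Ioi_of_hasDerivAt_of_nonneg' (a := 0) (fun r _ => hF r) hnn hlim
  have hint := integrableOn_Ioi_deriv_of_nonneg' (a := 0) (fun r _ => hF r) hnn hlim
  have hd : Module.finrank ℝ E = 3 := by simp
  have he : (fun z : E => 3 * ((rn 1 z)⁻¹) ^ 5) = fun z : E => (fun r : ℝ => 3 * ((Real.sqrt (r ^ 2 + 1))⁻¹) ^ 5) ‖z‖ := by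
    funext z
    simp [rn]
  constructor
  · rw [he]
    refine (integrable_fun_norm_addHaar (μ := (volume : Measure E))
      (f := fun r : ℝ => 3 * ((Real.sqrt (r ^ 2 + 1))⁻¹) ^ 5)).mpr ?_
    rw [hd]
    simpa only [smul_eq_mul] using hint
  · rw [he, integral_fun_norm_addHaar volume (fun r : ℝ => 3 * ((Real.sqrt (r ^ 2 + 1))⁻¹) ^ 5), hd]
    simp only [smul_eq_mul]
    have h3 : (3 : ℕ) - 1 = 2 := rfl
    rw [h3, hI]
    have hv : (volume : Measure E).real (ball 0 1) = Real.pi * 4 / 3 := by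
      rw [Measure.real, EuclideanSpace.volume_ball_fin_three]
      simp [ENNReal.toReal_ofReal, Real.pi_pos.le]
      positivity
    rw [hv]
    simp
    ring

theorem nwt0 {φ : E → ℝ} (hφ : ContDiff ℝ ∞ φ) (hs : HasCompactSupport φ) :
    φ 0 = -(4 * Real.pi)⁻¹ * ∫ y, lapl φ y * ‖y‖⁻¹ := by
  have A : ∀ ε : ℝ, 0 < ε → ∫ y, lapl φ y * (rn ε y)⁻¹ = - ∫ z, φ (ε • z) * (3 * ((rn 1 z)⁻¹) ^ 5) := by
    intro ε hε
    rw [ibpl hφ (hinv_smooth hε) hs]
    simp only [lapl_hinv hε]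
    have h1 := Measure.integral_comp_smul (volume : Measure E) (fun y => φ y * (3 * ε ^ 2 * ((rn ε y)⁻¹) ^ 5)) ε
    have hd : Module.finrank ℝ E = 3 := by simp
    rw [hd, abs_of_pos (by positivity)] at h1
    have h2 : ∀ z : E, rn ε (ε • z) = ε * rn 1 z := by
      intro z
      have e : rn ε (ε • z) ^ 2 = (ε * rn 1 z) ^ 2 := by
        rw [rn_sq, mul_pow, rn_sq, norm_smul, Real.norm_eq_abs, abs_of_pos hε]
        ring
      have p1 := (rn_pos hε (ε • z)).le
      have p2 : 0 ≤ ε * rn 1 z := (mul_pos hε (rn_pos one_pos z)).le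
      exact (pow_left_inj₀ p1 p2 (by norm_num)).mp e
    have h3 : (fun z : E => φ (ε • z) * (3 * ε ^ 2 * ((rn ε (ε • z))⁻¹) ^ 5))
        = fun z => (ε ^ 3)⁻¹ * (φ (ε • z) * (3 * ((rn 1 z)⁻¹) ^ 5)) := by
      funext z
      rw [h2]
      have hp := rn_pos one_pos z
      field_simp
    rw [h3, integral_const_mul] at h1
    have h4 : ∫ z : E, φ (ε • z) * (3 * ((rn 1 z)⁻¹) ^ 5) = ∫ y, φ y * (3 * ε ^ 2 * ((rn ε y)⁻¹) ^ 5) := by
      have hne : (ε ^ 3)⁻¹ ≠ 0 := by positivity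
      exact mul_left_cancel₀ hne (by simpa [smul_eq_mul] using h1)
    rw [h4, ← integral_neg]
    refine integral_congr_ae (Eventually.of_forall fun y => ?_)
    simp only
    ring
  have hcl : Continuous (lapl φ) := (lapl_smooth hφ).continuous
  have B : Tendsto (fun ε : ℝ => ∫ y, lapl φ y * (rn ε y)⁻¹) (𝓝[>] 0) (𝓝 (∫ y, lapl φ y * ‖y‖⁻¹)) := by
    have hI := (int_div_norm hcl (lapl_supp hs)).norm
    refine tendsto_integral_filter_of_dominated_convergence _ ?_ ?_ hI ?_
    · filter_upwards [self_mem_nhdsWithin] with ε hε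
      exact (hcl.mul (hinv_smooth hε).continuous).aestronglyMeasurable
    · filter_upwards [self_mem_nhdsWithin] with ε hε
      have hε' : (0 : ℝ) < ε := hε
      have hne : ∀ᵐ y : E, y ≠ 0 := by
        simp [ae_iff, measure_singleton]
      filter_upwards [hne] with y hy
      have hn : 0 < ‖y‖ := norm_pos_iff.mpr hy
      rw [norm_mul, norm_mul]
      refine mul_le_mul_of_nonneg_left ?_ (norm_nonneg _)
      rw [norm_inv, norm_inv, norm_norm, Real.norm_eq_abs, abs_of_pos (rn_pos hε' y)]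
      refine inv_anti₀ hn ?_
      unfold rn
      refine Real.le_sqrt_of_sq_le ?_
      nlinarith [sq_nonneg ε]
    · have hne : ∀ᵐ y : E, y ≠ 0 := by
        simp [ae_iff, measure_singleton]
      filter_upwards [hne] with y hy
      have hn : 0 < ‖y‖ := norm_pos_iff.mpr hy
      refine Tendsto.const_mul _ ?_
      have h1 : Tendsto (fun ε : ℝ => Real.sqrt (‖y‖ ^ 2 + ε ^ 2)) (𝓝[>] 0) (𝓝 (Real.sqrt (‖y‖ ^ 2 + 0 ^ 2))) := by
        refine Tendsto.mono_left ?_ nhdsWithin_le_nhds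
        exact ((Real.continuous_sqrt.comp (continuous_const.add (continuous_id.pow 2))).tendsto 0)
      have h2 : Real.sqrt (‖y‖ ^ 2 + 0 ^ 2) = ‖y‖ := by
        rw [zero_pow two_ne_zero, add_zero]
        exact Real.sqrt_sq (norm_nonneg y)
      rw [h2] at h1
      exact h1.inv₀ hn.ne'
  have C : Tendsto (fun ε : ℝ => ∫ z, φ (ε • z) * (3 * ((rn 1 z)⁻¹) ^ 5)) (𝓝[>] 0)
      (𝓝 (∫ z : E, φ 0 * (3 * ((rn 1 z)⁻¹) ^ 5))) := by
    obtain ⟨M, hM⟩ := hs.exists_bound_of_continuous hφ.continuous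
    refine tendsto_integral_filter_of_dominated_convergence (fun z : E => M * (3 * ((rn 1 z)⁻¹) ^ 5)) ?_ ?_
      (kern_int.1.const_mul M) ?_
    · refine Eventually.of_forall fun ε => ?_
      have : Continuous fun z : E => φ (ε • z) * (3 * ((rn 1 z)⁻¹) ^ 5) :=
        (hφ.continuous.comp (continuous_const_smul ε)).mul
          (continuous_const.mul ((hinv_smooth one_pos).continuous.pow 5))
      exact this.aestronglyMeasurable
    · refine Eventually.of_forall fun ε => Eventually.of_forall fun z => ?_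
      have hp := rn_pos one_pos z
      rw [norm_mul, Real.norm_of_nonneg (by positivity : (0 : ℝ) ≤ 3 * ((rn 1 z)⁻¹) ^ 5)]
      exact mul_le_mul_of_nonneg_right (hM _) (by positivity)
    · refine Eventually.of_forall fun z => ?_
      refine Tendsto.mul_const _ ?_
      have h1 : Tendsto (fun ε : ℝ => φ (ε • z)) (𝓝[>] 0) (𝓝 (φ ((0 : ℝ) • z))) := by
        refine Tendsto.mono_left ?_ nhdsWithin_le_nhds
        exact ((hφ.continuous.comp (continuous_id.smul continuous_const)).tendsto 0)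
      rwa [zero_smul] at h1
  have D : Tendsto (fun ε : ℝ => ∫ y, lapl φ y * (rn ε y)⁻¹) (𝓝[>] 0) (𝓝 (- ∫ z : E, φ 0 * (3 * ((rn 1 z)⁻¹) ^ 5))) := by
    refine C.neg.congr' ?_
    filter_upwards [self_mem_nhdsWithin] with ε hε
    exact (A ε hε).symm
  have F := tendsto_nhds_unique B D
  rw [integral_const_mul, kern_int.2] at F
  rw [F]
  have := Real.pi_pos
  field_simp

theorem nwt : T_NWT := by
  intro φ hφ hs x
  have hφ' : ContDiff ℝ ∞ (fun y => φ (x + y)) := hφ.comp (contDiff_const.add contDiff_id)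
  have hs' : HasCompactSupport (fun y => φ (x + y)) :=
    hs.comp_homeomorph (Homeomorph.addLeft x)
  have e1 : ∀ y, (∑ k : Fin 3, pd k (pd k φ) y) / ‖x - y‖ = lapl φ (x + (y - x)) * ‖y - x‖⁻¹ := by
    intro y
    rw [add_sub_cancel, norm_sub_rev, div_eq_mul_inv]
    rfl
  have i1 : Integrable (fun y => lapl φ (x + y) * ‖y‖⁻¹) := by
    have := int_div_norm (lapl_smooth hφ').continuous (lapl_supp hs')
    rwa [lapl_trans] at this
  constructor
  · simp only [e1]
    exact i1.comp_sub_right x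
  · have h := nwt0 hφ' hs'
    rw [lapl_trans] at h
    simp only [add_zero] at h
    simp only [e1]
    rw [integral_sub_right_eq_self (fun y => lapl φ (x + y) * ‖y‖⁻¹) x]
    exact h

end Pool.Agent.H58.IC
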