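import Mathlib
import Pool.Agent.H94.IC.Targets3

/-!
# Insulating cracks, module MUL: bounds for multipoles
-/

open MeasureTheory Set Filter Topology Metric
open scoped ENNReal NNReal ContDiff RealInnerProductSpace

namespace Pool.Agent.H58.IC

open Pool.Agent.H94.IC

/-- homogeneity of the derivative -/
theorem hom_fderiv {F : Type*} [NormedAddCommGroup F] [NormedSpace ℝ F] {f : E → F} {m : ℕ}
    (h : ∀ l : ℝ, 0 < l → ∀ y, f (l • y) = (l⁻¹) ^ m • f y) :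
    ∀ l : ℝ, 0 < l → ∀ y, fderiv ℝ f (l • y) = (l⁻¹) ^ (m + 1) • fderiv ℝ f y := by
  intro l hl y
  have h1 : fderiv ℝ (fun z => f (l • z)) y = l • fderiv ℝ f (l • y) := fderiv_comp_smul l
  have h2 : (fun z => f (l • z)) = (l⁻¹) ^ m • f := by
    funext z
    rw [h l hl z]
    rfl
  rw [h2] at h1
  have hne : (l⁻¹) ^ m ≠ 0 := pow_ne_zero _ (inv_ne_zero hl.ne')
  haveI : Invertible ((l⁻¹) ^ m) := invertibleOfNonzero hne
  rw [fderiv_const_smul_of_invertible] at h1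
  rw [pow_succ, mul_comm, mul_smul, h1, smul_smul, inv_mul_cancel₀ hl.ne', one_smul]

/-- homogeneous functions which are continuous off the origin are bounded by a power of the norm -/
theorem hom_bound {F : Type*} [NormedAddCommGroup F] [NormedSpace ℝ F] {f : E → F} {m : ℕ}
    (h : ∀ l : ℝ, 0 < l → ∀ y, f (l • y) = (l⁻¹) ^ m • f y) (hc : ContinuousOn f {0}ᶜ) :
    ∃ C : ℝ, ∀ y : E, y ≠ 0 → ‖f y‖ ≤ C * (‖y‖⁻¹) ^ m := by
  have hK : IsCompact (sphere (0 : E) 1) := isCompact_sphere 0 1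
  have hs : sphere (0 : E) 1 ⊆ {0}ᶜ := by
    intro x hx h0
    simp only [mem_singleton_iff] at h0
    rw [h0] at hx
    simp at hx
  obtain ⟨C, hC⟩ := hK.exists_bound_of_continuousOn (hc.mono hs)
  refine ⟨C, fun y hy => ?_⟩
  have hn : 0 < ‖y‖ := norm_pos_iff.mpr hy
  have h1 : y = ‖y‖ • (‖y‖⁻¹ • y) := by
    rw [smul_smul, mul_inv_cancel₀ hn.ne', one_smul]
  have h2 : (‖y‖⁻¹ • y) ∈ sphere (0 : E) 1 := by
    rw [mem_sphere_zero_iff_norm, norm_smul, norm_inv, norm_norm, inv_mul_cancel₀ hn.ne']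
  have h3 := hC _ h2
  have h4 := h ‖y‖ hn (‖y‖⁻¹ • y)
  rw [← h1] at h4
  rw [h4, norm_smul, norm_pow, norm_inv, norm_norm, mul_comm]
  exact mul_le_mul_of_nonneg_right h3 (by positivity)

theorem hh_succ (w : E) (k : ℕ) : HH w (k + 1) = fun y => fderiv ℝ (HH w k) y w := by
  unfold HH
  rw [Function.iterate_succ_apply']

theorem isOpen_cz : IsOpen ({0}ᶜ : Set E) := isOpen_compl_singleton

theorem smooth_hh (w : E) (k : ℕ) : ContDiffOn ℝ ∞ (HH w k) {0}ᶜ := by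
  induction k with
  | zero =>
    intro x hx
    have hx' : x ≠ 0 := hx
    have : ContDiffAt ℝ ∞ (fun y : E => ‖y‖⁻¹) x :=
      (contDiffAt_norm ℝ hx').inv (norm_ne_zero_iff.mpr hx')
    exact this.contDiffWithinAt
  | succ k ih =>
    rw [hh_succ]
    have h1 : ContDiffOn ℝ ∞ (fderiv ℝ (HH w k)) {0}ᶜ :=
      ih.fderiv_of_isOpen isOpen_cz (by simp)
    exact h1.clm_apply contDiffOn_const

theorem hom_hh (w : E) (k : ℕ) : ∀ l : ℝ, 0 < l → ∀ y, HH w k (l • y) = (l⁻¹) ^ (k + 1) • HH w k y := by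
  induction k with
  | zero =>
    intro l hl y
    simp only [HH, Function.iterate_zero, id_eq, norm_smul, Real.norm_eq_abs, abs_of_pos hl, mul_inv, zero_add,
      pow_one, smul_eq_mul]
  | succ k ih =>
    intro l hl y
    rw [hh_succ]
    have := hom_fderiv ih l hl y
    simp only [this, ContinuousLinearMap.smul_apply]

/-- exchange of derivatives -/
theorem exch {f : E → ℝ} {x : E} (hf : ContDiffAt ℝ ∞ f x) (a b : E) :
    fderiv ℝ (fun z => fderiv ℝ f z a) x b = fderiv ℝ (fun z => fderiv ℝ f z b) x a := by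
  have h2i : (2 : WithTop ℕ∞) ≤ ((⊤ : ℕ∞) : WithTop ℕ∞) := by
    have h : (2 : ℕ∞) ≤ ⊤ := le_top
    exact WithTop.coe_le_coe.2 h
  have hs : IsSymmSndFDerivAt ℝ f x := hf.isSymmSndFDerivAt (by simpa using h2i)
  have hd : DifferentiableAt ℝ (fderiv ℝ f) x :=
    (hf.fderiv_right (m := ∞) (by simp)).differentiableAt (by simp)
  have e : ∀ c : E, ∀ d : E, fderiv ℝ (fun z => fderiv ℝ f z c) x d = fderiv ℝ (fderiv ℝ f) x d c := by
    intro c d
    rw [fderiv_clm_apply hd (differentiableAt_const c)]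
    simp
  rw [e, e]
  exact hs b a

theorem harm_succ {f : E → ℝ} (w : E) (hf : Harm {0}ᶜ f) : Harm {0}ᶜ (fun y => fderiv ℝ f y w) := by
  obtain ⟨h1, h2⟩ := hf
  have s1 : ∀ {g : E → ℝ}, ContDiffOn ℝ ∞ g {0}ᶜ → ∀ a : E, ContDiffOn ℝ ∞ (fun y => fderiv ℝ g y a) {0}ᶜ := by
    intro g hg a
    exact (hg.fderiv_of_isOpen isOpen_cz (by simp)).clm_apply contDiffOn_const
  have at1 : ∀ {g : E → ℝ}, ContDiffOn ℝ ∞ g {0}ᶜ → ∀ x : E, x ∈ ({0}ᶜ : Set E) → ContDiffAt ℝ ∞ g x := by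
    intro g hg x hx
    exact hg.contDiffAt (isOpen_cz.mem_nhds hx)
  refine ⟨s1 h1 w, fun x hx => ?_⟩
  have key : ∀ k : Fin 3, pd k (pd k (fun y => fderiv ℝ f y w)) x = fderiv ℝ (pd k (pd k f)) x w := by
    intro k
    have ev1 : (pd k (fun y => fderiv ℝ f y w)) =ᶠ[𝓝 x] (fun y => fderiv ℝ (pd k f) y w) := by
      filter_upwards [isOpen_cz.mem_nhds hx] with y hy
      exact exch (at1 h1 y hy) w (ev k)
    have e2 : pd k (pd k (fun y => fderiv ℝ f y w)) x = pd k (fun y => fderiv ℝ (pd k f) y w) x := by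
      unfold pd
      unfold pd at ev1
      rw [ev1.fderiv_eq]
    rw [e2]
    exact exch (at1 (s1 h1 (ev k)) x hx) w (ev k)
  simp only [key]
  have hd : ∀ k : Fin 3, DifferentiableAt ℝ (pd k (pd k f)) x := fun k =>
    (at1 (s1 (s1 h1 (ev k)) (ev k)) x hx).differentiableAt (by simp)
  have e3 : ∑ k : Fin 3, fderiv ℝ (pd k (pd k f)) x w = fderiv ℝ (fun y => ∑ k : Fin 3, pd k (pd k f) y) x w := by
    rw [fderiv_fun_sum (fun k _ => hd k)]
    simp
  rw [e3]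
  have ev0 : (fun y => ∑ k : Fin 3, pd k (pd k f) y) =ᶠ[𝓝 x] fun _ => (0 : ℝ) := by
    filter_upwards [isOpen_cz.mem_nhds hx] with y hy
    exact h2 y hy
  rw [ev0.fderiv_eq]
  simp

/-- derivatives of powers of the norm -/
theorem fd_pow (x : E) (hx : x ≠ 0) (n : ℕ) (b : E) :
    fderiv ℝ (fun y : E => (‖y‖⁻¹) ^ n) x b = - (n : ℝ) * (‖x‖⁻¹) ^ (n + 2) * ⟪x, b⟫ := by
  have hn : ‖x‖ ≠ 0 := norm_ne_zero_iff.mpr hx
  have h0 : HasFDerivAt (fun y : E => ‖y‖ ^ 2) (2 • innerSL ℝ x) x := (hasStrictFDerivAt_norm_sq x).hasFDerivAt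
  have h1 : HasFDerivAt (fun y : E => Real.sqrt (‖y‖ ^ 2)) ((1 / (2 * Real.sqrt (‖x‖ ^ 2))) • (2 • innerSL ℝ x)) x :=
    h0.sqrt (by positivity)
  have h2 : (fun y : E => Real.sqrt (‖y‖ ^ 2)) = fun y => ‖y‖ := by
    funext y
    exact Real.sqrt_sq (norm_nonneg y)
  rw [h2, Real.sqrt_sq (norm_nonneg x)] at h1
  have h3 : HasDerivAt (fun t : ℝ => (t⁻¹) ^ n) ((n : ℝ) * (‖x‖⁻¹) ^ (n - 1) * (-(‖x‖ ^ 2)⁻¹)) ‖x‖ :=
    (hasDerivAt_inv hn).fun_pow n
  have h4 := h3.comp_hasFDerivAt x h1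
  have h5 : fderiv ℝ (fun y : E => (‖y‖⁻¹) ^ n) x = _ := h4.fderiv
  rw [h5]
  simp only [ContinuousLinearMap.smul_apply, innerSL_apply_apply, smul_eq_mul, nsmul_eq_mul]
  rcases n with _ | n
  · simp
  · simp only [Nat.add_sub_cancel]
    have e1 : (‖x‖ ^ 2)⁻¹ = ‖x‖⁻¹ ^ 2 := by rw [inv_pow]
    have e2 : 1 / (2 * ‖x‖) = ‖x‖⁻¹ / 2 := by
      rw [one_div, mul_inv]
      ring
    rw [e1, e2]
    push_cast
    ring

theorem harm_zero : Harm {0}ᶜ (fun y : E => ‖y‖⁻¹) := by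
  refine ⟨smooth_hh 0 0, fun x hx => ?_⟩
  have hx' : x ≠ 0 := hx
  have hn : ‖x‖ ≠ 0 := norm_ne_zero_iff.mpr hx'
  have key : ∀ k : Fin 3, pd k (pd k (fun y : E => ‖y‖⁻¹)) x
      = 3 * (‖x‖⁻¹) ^ 5 * (x k) ^ 2 - (‖x‖⁻¹) ^ 3 := by
    intro k
    have ev1 : (pd k (fun y : E => ‖y‖⁻¹)) =ᶠ[𝓝 x] (fun y => - ((‖y‖⁻¹) ^ 3 * (y k))) := by
      filter_upwards [isOpen_cz.mem_nhds hx] with y hy
      have := fd_pow y hy 1 (ev k)
      simp only [pow_one] at this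
      unfold pd
      rw [this]
      simp [EuclideanSpace.inner_single_right]
    have e2 : pd k (pd k (fun y : E => ‖y‖⁻¹)) x = fderiv ℝ (fun y => - ((‖y‖⁻¹) ^ 3 * (y k))) x (ev k) := by
      conv_lhs => unfold pd
      unfold pd at ev1
      rw [ev1.fderiv_eq]
    rw [e2]
    have hd1 : DifferentiableAt ℝ (fun y : E => (‖y‖⁻¹) ^ 3) x := by
      have : ContDiffAt ℝ ∞ (fun y : E => ‖y‖⁻¹) x := (contDiffAt_norm ℝ hx').inv hn
      exact (this.pow 3).differentiableAt (by simp)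
    have hd2 : HasFDerivAt (fun y : E => y k) (EuclideanSpace.proj k : E →L[ℝ] ℝ) x :=
      (EuclideanSpace.proj k : E →L[ℝ] ℝ).hasFDerivAt
    have h3 := (hd1.hasFDerivAt.mul hd2).neg
    have h4 : fderiv ℝ (fun y : E => - ((‖y‖⁻¹) ^ 3 * (y k))) x = _ := h3.fderiv
    rw [h4]
    simp only [ContinuousLinearMap.neg_apply, ContinuousLinearMap.add_apply, ContinuousLinearMap.smul_apply,
      smul_eq_mul, fd_pow x hx' 3 (ev k)]
    have h5 : ⟪x, ev k⟫ = x k := by simp [EuclideanSpace.inner_single_right]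
    rw [h5]
    simp
    ring
  simp only [key]
  have h6 : ∑ k : Fin 3, (x k) ^ 2 = ‖x‖ ^ 2 := by
    rw [EuclideanSpace.norm_sq_eq]
    simp
  rw [Finset.sum_sub_distrib, ← Finset.mul_sum, h6]
  simp
  field_simp
  norm_num

theorem harm_hh (w : E) (k : ℕ) : Harm {0}ᶜ (HH w k) := by
  induction k with
  | zero => exact harm_zero
  | succ k ih =>
    rw [hh_succ]
    exact harm_succ w ih

theorem mul : T_MUL := by
  intro w k
  refine ⟨harm_hh w k, ?_⟩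
  have hs := smooth_hh w k
  have hs1 : ContDiffOn ℝ ∞ (fderiv ℝ (HH w k)) {0}ᶜ := hs.fderiv_of_isOpen isOpen_cz (by simp)
  have hs2 : ContDiffOn ℝ ∞ (fderiv ℝ (fderiv ℝ (HH w k))) {0}ᶜ := hs1.fderiv_of_isOpen isOpen_cz (by simp)
  have m0 := hom_hh w k
  have m1 := hom_fderiv m0
  have m2 := hom_fderiv (F := E →L[ℝ] ℝ) (f := fderiv ℝ (HH w k)) m1
  obtain ⟨C0, hC0⟩ := hom_bound m0 hs.continuousOn
  obtain ⟨C1, hC1⟩ := hom_bound (F := E →L[ℝ] ℝ) (f := fderiv ℝ (HH w k)) m1 hs1.continuousOn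
  obtain ⟨C2, hC2⟩ := hom_bound (F := E →L[ℝ] E →L[ℝ] ℝ) (f := fderiv ℝ (fderiv ℝ (HH w k))) m2 hs2.continuousOn
  refine ⟨max C0 (max C1 C2), fun y hy => ⟨?_, ?_, ?_⟩⟩
  · refine (hC0 y hy).trans (mul_le_mul_of_nonneg_right (le_max_left _ _) (by positivity))
  · have : ‖gr (HH w k) y‖ = ‖fderiv ℝ (HH w k) y‖ := by
      unfold gr gradient
      exact LinearIsometryEquiv.norm_map _ _
    rw [this]
    refine (hC1 y hy).trans (mul_le_mul_of_nonneg_right ?_ (by positivity))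
    exact (le_max_left _ _).trans (le_max_right _ _)
  · have : ‖fderiv ℝ (gr (HH w k)) y‖ = ‖fderiv ℝ (fderiv ℝ (HH w k)) y‖ := by
      have e : gr (HH w k) = fun z => (InnerProductSpace.toDual ℝ E).symm (fderiv ℝ (HH w k) z) := rfl
      rw [e]
      have e2 := ((InnerProductSpace.toDual ℝ E).symm).comp_fderiv (f := fderiv ℝ (HH w k)) (x := y)
      have e3 : (fun z => (InnerProductSpace.toDual ℝ E).symm (fderiv ℝ (HH w k) z))
          = ((InnerProductSpace.toDual ℝ E).symm) ∘ (fderiv ℝ (HH w k)) := rfl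
      rw [e3, e2]
      exact LinearIsometry.norm_toContinuousLinearMap_comp ((InnerProductSpace.toDual ℝ E).symm).toLinearIsometry
    rw [this]
    refine (hC2 y hy).trans (mul_le_mul_of_nonneg_right ?_ (by positivity))
    exact (le_max_right _ _).trans (le_max_right _ _)

end Pool.Agent.H58.IC
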