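import Mathlib
import Pool.Agent.H94.IC.Targets2

/-!
# Insulating cracks, module TBV: volume of tubes around the edge
-/

open MeasureTheory Set Filter Topology Metric
open scoped ENNReal NNReal ContDiff RealInnerProductSpace

namespace Pool.Agent.H58.IC

open Pool.Agent.H94.IC

/-- the parametrised circle -/
noncomputable def crc (t : ℝ) : E := WithLp.toLp 2 ![Real.cos t, Real.sin t, 0]

theorem crc_smooth : ContDiff ℝ ∞ crc := by
  rw [contDiff_euclidean]
  intro i
  fin_cases i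
  · exact Real.contDiff_cos
  · exact Real.contDiff_sin
  · exact contDiff_const

theorem crc_mem (t : ℝ) : crc t ∈ flatDisc := by
  refine ⟨rfl, ?_⟩
  have : crc t 0 ^ 2 + crc t 1 ^ 2 = 1 := by
    have := Real.cos_sq_add_sin_sq t
    exact this
  exact this.le

theorem crc_surj (y : E) (h2 : y 2 = 0) (h1 : y 0 ^ 2 + y 1 ^ 2 = 1) : ∃ t ∈ Icc (-Real.pi) Real.pi, crc t = y := by
  have hn : ‖(⟨y 0, y 1⟩ : ℂ)‖ = 1 := by
    rw [Complex.norm_def, Complex.normSq_mk, ← pow_two, ← pow_two, h1, Real.sqrt_one]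
  have hz : (⟨y 0, y 1⟩ : ℂ) ≠ 0 := by
    intro h
    rw [h, norm_zero] at hn
    exact zero_ne_one hn
  refine ⟨Complex.arg ⟨y 0, y 1⟩, ⟨(Complex.neg_pi_lt_arg _).le, Complex.arg_le_pi _⟩, ?_⟩
  ext i
  fin_cases i
  · show Real.cos (Complex.arg ⟨y 0, y 1⟩) = y 0
    rw [Complex.cos_arg hz, hn, div_one]
  · show Real.sin (Complex.arg ⟨y 0, y 1⟩) = y 1
    rw [Complex.sin_arg, hn, div_one]
  · exact h2.symm

theorem tbv : T_TBV := by
  intro Ω S Φ δ hT
  have hsub : flatDisc ⊆ Φ.source := (self_subset_cthickening flatDisc).trans hT.src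
  have hγ : ContDiff ℝ ∞ (fun t => Φ (crc t)) :=
    hT.sm.comp_contDiff crc_smooth fun t => hsub (crc_mem t)
  have hd : Differentiable ℝ (fun t => Φ (crc t)) := hγ.differentiable (by simp)
  have hdc : Continuous (deriv fun t => Φ (crc t)) := hγ.continuous_deriv (by simp)
  obtain ⟨K, hK⟩ := (isCompact_Icc (a := -Real.pi) (b := Real.pi)).exists_bound_of_continuousOn hdc.continuousOn
  have hpi := Real.pi_pos
  have hK0 : 0 ≤ K := (norm_nonneg _).trans (hK 0 ⟨by linarith, by linarith⟩)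
  have hlip : ∀ s ∈ Icc (-Real.pi) Real.pi, ∀ t ∈ Icc (-Real.pi) Real.pi,
      ‖Φ (crc t) - Φ (crc s)‖ ≤ K * ‖t - s‖ := by
    intro s hs t ht
    exact Convex.norm_image_sub_le_of_norm_deriv_le (fun x _ => hd x) hK (convex_Icc _ _) hs ht
  set A : ℝ := 2 * Real.pi * K + 1 with hA
  have hA0 : 0 < A := by positivity
  refine ⟨4 * Real.pi * A ^ 3, fun r hr => ?_⟩
  obtain ⟨hr0, hr1⟩ := hr
  set N : ℕ := ⌈1 / r⌉₊ with hN
  have hN1 : 1 / r ≤ N := Nat.le_ceil _
  have hN0 : (0 : ℝ) < N := lt_of_lt_of_le (by positivity) hN1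
  have hN2 : (N : ℝ) < 1 / r + 1 := Nat.ceil_lt_add_one (by positivity)
  have hNr : 1 / (N : ℝ) ≤ r := by
    rw [div_le_iff₀ hN0]
    rw [div_le_iff₀ hr0] at hN1
    linarith
  have hcov : thickening r (Φ '' {y | y 2 = 0 ∧ y 0 ^ 2 + y 1 ^ 2 = 1}) ⊆
      ⋃ i ∈ Finset.range (N + 1), ball (Φ (crc (-Real.pi + 2 * Real.pi * i / N))) (A * r) := by
    intro x hx
    rw [mem_thickening_iff] at hx
    obtain ⟨z, ⟨y, ⟨hy2, hy1⟩, rfl⟩, hxz⟩ := hx
    obtain ⟨t, ht, rfl⟩ := crc_surj y hy2 hy1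
    have hu0 : 0 ≤ (t + Real.pi) * N / (2 * Real.pi) := by
      have := ht.1
      have h : 0 ≤ t + Real.pi := by linarith
      positivity
    set i : ℕ := ⌊(t + Real.pi) * N / (2 * Real.pi)⌋₊ with hi
    have hi1 : (i : ℝ) ≤ (t + Real.pi) * N / (2 * Real.pi) := Nat.floor_le hu0
    have hi2 : (t + Real.pi) * N / (2 * Real.pi) < i + 1 := Nat.lt_floor_add_one _
    rw [le_div_iff₀ (by positivity)] at hi1
    rw [div_lt_iff₀ (by positivity)] at hi2
    have hiN : (i : ℝ) ≤ N := by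
      have h1 : (t + Real.pi) * N ≤ (2 * Real.pi) * N := by
        refine mul_le_mul_of_nonneg_right ?_ hN0.le
        linarith [ht.2]
      have h2 : (i : ℝ) * (2 * Real.pi) ≤ N * (2 * Real.pi) := by linarith
      exact le_of_mul_le_mul_right h2 (by positivity)
    have hiN' : i ≤ N := by exact_mod_cast hiN
    refine mem_iUnion₂.mpr ⟨i, Finset.mem_range.mpr (Nat.lt_succ_of_le hiN'), ?_⟩
    set s : ℝ := -Real.pi + 2 * Real.pi * i / N with hs
    have hs1 : s ≤ t := by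
      have h : 2 * Real.pi * i / N ≤ t + Real.pi := by
        rw [div_le_iff₀ hN0]
        linarith
      rw [hs]
      linarith
    have hs0 : -Real.pi ≤ s := by
      have : 0 ≤ 2 * Real.pi * i / N := by positivity
      rw [hs]
      linarith
    have hs2 : t - s ≤ 2 * Real.pi * r := by
      have h : t + Real.pi ≤ 2 * Real.pi * i / N + 2 * Real.pi * (1 / N) := by
        have e : 2 * Real.pi * i / N + 2 * Real.pi * (1 / (N : ℝ)) = ((i + 1) * (2 * Real.pi)) / N := by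
          field_simp
        rw [e, le_div_iff₀ hN0]
        linarith
      have h2 : 2 * Real.pi * (1 / (N : ℝ)) ≤ 2 * Real.pi * r :=
        mul_le_mul_of_nonneg_left hNr (by positivity)
      rw [hs]
      linarith
    have hl := hlip s ⟨hs0, hs1.trans ht.2⟩ t ht
    have hl2 : dist (Φ (crc t)) (Φ (crc s)) ≤ K * (2 * Real.pi * r) := by
      rw [dist_eq_norm]
      refine hl.trans (mul_le_mul_of_nonneg_left ?_ hK0)
      rw [Real.norm_eq_abs, abs_of_nonneg (by linarith)]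
      exact hs2
    rw [mem_ball]
    calc dist x (Φ (crc s)) ≤ dist x (Φ (crc t)) + dist (Φ (crc t)) (Φ (crc s)) := dist_triangle _ _ _
      _ < r + K * (2 * Real.pi * r) := add_lt_add_of_lt_of_le hxz hl2
      _ = A * r := by
        rw [hA]
        ring
  refine (measure_mono hcov).trans ?_
  refine (measure_biUnion_finset_le _ _).trans ?_
  have hb : ∀ x : E, volume (ball x (A * r)) = ENNReal.ofReal ((A * r) ^ 3 * (Real.pi * 4 / 3)) := by
    intro x
    rw [EuclideanSpace.volume_ball_fin_three, ← ENNReal.ofReal_pow (by positivity), ← ENNReal.ofReal_mul (by positivity)]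
  simp only [hb, Finset.sum_const, Finset.card_range, nsmul_eq_mul]
  have hcast : ((N + 1 : ℕ) : ℝ≥0∞) = ENNReal.ofReal ((N + 1 : ℕ) : ℝ) := by
    rw [ENNReal.ofReal_natCast]
  rw [hcast, ← ENNReal.ofReal_mul (by positivity)]
  refine ENNReal.ofReal_le_ofReal ?_
  have h3 : ((N + 1 : ℕ) : ℝ) * r ≤ 3 := by
    push_cast
    have h4 : (N : ℝ) * r < (1 / r + 1) * r := mul_lt_mul_of_pos_right hN2 hr0
    have h5 : (1 / r + 1) * r = 1 + r := by
      field_simp
    nlinarith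
  calc ((N + 1 : ℕ) : ℝ) * ((A * r) ^ 3 * (Real.pi * 4 / 3))
      = (((N + 1 : ℕ) : ℝ) * r) * (A ^ 3 * r ^ 2 * (Real.pi * 4 / 3)) := by ring
    _ ≤ 3 * (A ^ 3 * r ^ 2 * (Real.pi * 4 / 3)) := mul_le_mul_of_nonneg_right h3 (by positivity)
    _ = 4 * Real.pi * A ^ 3 * r ^ 2 := by ring

end Pool.Agent.H58.IC
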