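import Mathlib
import Pool.Agent.H94.IC.Targets3

/-!
# Insulating cracks, module XCK: exterior corkscrew points
-/

open MeasureTheory Set Filter Topology Metric
open scoped ENNReal NNReal ContDiff RealInnerProductSpace

namespace Pool.Agent.H58.IC

open Pool.Agent.H94.IC

/-- the corkscrew condition on a set of boundary points -/
def Cork (Ω U : Set E) : Prop := ∃ c s1 : ℝ, 0 < c ∧ c ≤ 1 ∧ 0 < s1 ∧
  ∀ q ∈ U, ∀ s ∈ Ioc 0 s1, ∃ p : E, dist p q ≤ s ∧ ∀ x ∈ closure Ω, c * s ≤ dist x p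

theorem cork_local {Ω : Set E} (hΩ : IsOpen Ω) (hL : LipBdry Ω) (q0 : E) (hq0 : q0 ∈ frontier Ω) :
    ∃ U ∈ 𝓝[frontier Ω] q0, Cork Ω U := by
  obtain ⟨T, r, L, g, hr, hg, hT⟩ := hL q0 hq0
  have hcl : ∀ x ∈ closure Ω, x ∈ ball q0 r → (T x) 2 ≤ g ((T x) 0, (T x) 1) := by
    intro x hx hxb
    by_contra hlt
    push Not at hlt
    have c2 : Continuous fun y : E => (T y) 2 :=
      (EuclideanSpace.proj (2 : Fin 3) : E →L[ℝ] ℝ).continuous.comp T.continuous
    have c0 : Continuous fun y : E => (T y) 0 :=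
      (EuclideanSpace.proj (0 : Fin 3) : E →L[ℝ] ℝ).continuous.comp T.continuous
    have c1 : Continuous fun y : E => (T y) 1 :=
      (EuclideanSpace.proj (1 : Fin 3) : E →L[ℝ] ℝ).continuous.comp T.continuous
    have cg : Continuous fun y : E => g ((T y) 0, (T y) 1) := hg.continuous.comp (c0.prodMk c1)
    have ho : IsOpen ({y : E | g ((T y) 0, (T y) 1) < (T y) 2} ∩ ball q0 r) :=
      (isOpen_lt cg c2).inter isOpen_ball
    obtain ⟨y, ⟨hy1, hy2⟩, hy3⟩ := mem_closure_iff.mp hx _ ho ⟨hlt, hxb⟩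
    have h1 := (hT y hy2).mp hy3
    have h2 : g ((T y) 0, (T y) 1) < (T y) 2 := hy1
    exact lt_asymm h1 h2
  refine ⟨frontier Ω ∩ ball q0 (r / 2), ?_, ?_⟩
  · exact inter_mem_nhdsWithin _ (ball_mem_nhds q0 (half_pos hr))
  have hL0 : (0 : ℝ) ≤ L := L.coe_nonneg
  refine ⟨1 / (2 * (1 + L)), r / 4, by positivity, ?_, by positivity, ?_⟩
  · rw [div_le_one (by positivity)]
    linarith
  intro q hq s hs
  obtain ⟨hqf, hqb⟩ := hq
  obtain ⟨hs0, hs1⟩ := hs
  rw [mem_ball] at hqb
  have hqn : q ∉ Ω := by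
    intro h
    have := hqf.2
    rw [hΩ.interior_eq] at this
    exact this h
  have hgq : g ((T q) 0, (T q) 1) ≤ (T q) 2 := by
    by_contra h
    push Not at h
    exact hqn ((hT q (mem_ball.mpr (by linarith))).mpr h)
  refine ⟨q + s • T.symm (ev 2), ?_, ?_⟩
  · rw [dist_eq_norm, add_sub_cancel_left, norm_smul, LinearIsometryEquiv.norm_map, Real.norm_of_nonneg hs0.le]
    simp
  intro x hx
  by_contra hlt
  push Not at hlt
  set p : E := q + s • T.symm (ev 2) with hp
  have hTp : T p = T q + s • ev 2 := by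
    rw [hp, map_add, map_smul, LinearIsometryEquiv.apply_symm_apply]
  have hc : 1 / (2 * (1 + (L : ℝ))) ≤ 1 := by
    rw [div_le_one (by positivity)]
    linarith
  have hxb : x ∈ ball q0 r := by
    rw [mem_ball]
    have h1 : dist p q ≤ s := by
      rw [hp, dist_eq_norm, add_sub_cancel_left, norm_smul, LinearIsometryEquiv.norm_map, Real.norm_of_nonneg hs0.le]
      simp
    have h2 : 1 / (2 * (1 + (L : ℝ))) * s ≤ s := by
      calc _ ≤ 1 * s := mul_le_mul_of_nonneg_right hc hs0.le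
        _ = s := one_mul s
    calc dist x q0 ≤ dist x p + dist p q + dist q q0 := dist_triangle4 _ _ _ _
      _ < r := by linarith
  have h1 := hcl x hx hxb
  have hcoord : ∀ i : Fin 3, |(T x) i - (T p) i| ≤ dist x p := by
    intro i
    have e : (T x) i - (T p) i = (T x - T p) i := rfl
    rw [e, ← Real.norm_eq_abs]
    refine (PiLp.norm_apply_le _ i).trans ?_
    rw [← map_sub, LinearIsometryEquiv.norm_map, dist_eq_norm]
  have hp0 : (T p) 0 = (T q) 0 := by
    rw [hTp]
    simp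
  have hp1 : (T p) 1 = (T q) 1 := by
    rw [hTp]
    simp
  have hp2 : (T p) 2 = (T q) 2 + s := by
    rw [hTp]
    simp
  have h2 : g ((T x) 0, (T x) 1) - g ((T q) 0, (T q) 1) ≤ L * dist x p := by
    have h3 := hg.dist_le_mul ((T x) 0, (T x) 1) ((T q) 0, (T q) 1)
    have h4 : dist ((T x) 0, (T x) 1) ((T q) 0, (T q) 1) ≤ dist x p := by
      rw [Prod.dist_eq, max_le_iff]
      constructor
      · have := hcoord 0
        rw [hp0] at this
        rwa [Real.dist_eq]
      · have := hcoord 1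
        rw [hp1] at this
        rwa [Real.dist_eq]
    rw [Real.dist_eq] at h3
    exact (le_abs_self _).trans (h3.trans (mul_le_mul_of_nonneg_left h4 hL0))
  have h5 := hcoord 2
  rw [hp2] at h5
  have h6 := neg_le_of_abs_le h5
  have h7 : s ≤ (1 + L) * dist x p := by nlinarith
  have h8 : (1 + (L : ℝ)) * dist x p < (1 + L) * (1 / (2 * (1 + (L : ℝ))) * s) :=
    mul_lt_mul_of_pos_left hlt (by positivity)
  have h9 : (1 + (L : ℝ)) * (1 / (2 * (1 + (L : ℝ))) * s) = s / 2 := by
    field_simp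
  linarith

theorem xck : T_XCK := by
  intro Ω hD
  have hcpt : IsCompact (frontier Ω) := by
    refine Metric.isCompact_of_isClosed_isBounded isClosed_frontier ?_
    exact hD.bdd.closure.subset frontier_subset_closure
  have hcork : Cork Ω (frontier Ω) := by
    refine hcpt.induction_on (p := Cork Ω) ?_ ?_ ?_ ?_
    · exact ⟨1, 1, one_pos, le_refl _, one_pos, fun q hq => absurd hq (notMem_empty q)⟩
    · rintro A B hAB ⟨c, s1, h1, h2, h3, h4⟩
      exact ⟨c, s1, h1, h2, h3, fun q hq => h4 q (hAB hq)⟩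
    · rintro A B ⟨c, s1, h1, h2, h3, h4⟩ ⟨c', s1', h1', h2', h3', h4'⟩
      refine ⟨min c c', min s1 s1', lt_min h1 h1', (min_le_left _ _).trans h2, lt_min h3 h3', ?_⟩
      intro q hq s hs
      rcases hq with hq | hq
      · obtain ⟨p, hp1, hp2⟩ := h4 q hq s ⟨hs.1, hs.2.trans (min_le_left _ _)⟩
        refine ⟨p, hp1, fun x hx => le_trans ?_ (hp2 x hx)⟩
        exact mul_le_mul_of_nonneg_right (min_le_left _ _) hs.1.le
      · obtain ⟨p, hp1, hp2⟩ := h4' q hq s ⟨hs.1, hs.2.trans (min_le_right _ _)⟩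
        refine ⟨p, hp1, fun x hx => le_trans ?_ (hp2 x hx)⟩
        exact mul_le_mul_of_nonneg_right (min_le_right _ _) hs.1.le
    · intro q hq
      exact cork_local hD.op hD.lip q hq
  obtain ⟨c, s1, h1, h2, h3, h4⟩ := hcork
  have hfn : (frontier Ω).Nonempty := by
    rw [nonempty_frontier_iff]
    refine ⟨hD.conn.nonempty, fun h => ?_⟩
    have := hD.bdd
    rw [h] at this
    exact NormedSpace.unbounded_univ ℝ E this
  obtain ⟨x0, hx0⟩ := hD.conn.nonempty
  have hx0f : x0 ∉ frontier Ω := by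
    intro h
    have := h.2
    rw [hD.op.interior_eq] at this
    exact this hx0
  have hm : 0 < infDist x0 (frontier Ω) := (isClosed_frontier.notMem_iff_infDist_pos hfn).mp hx0f
  refine ⟨c, min s1 (infDist x0 (frontier Ω) / 2), h1, h2, lt_min h3 (half_pos hm), ?_, ?_⟩
  · intro q hq s hs
    exact h4 q hq s ⟨hs.1, hs.2.trans (min_le_left _ _)⟩
  · intro s hs
    have hs2 : s ≤ infDist x0 (frontier Ω) / 2 := hs.2.trans (min_le_right _ _)
    obtain ⟨q, hq⟩ := hfn
    obtain ⟨x1, hx1, hx1q⟩ := Metric.mem_closure_iff.mp hq.1 (2 * s) (by linarith [hs.1])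
    have hle : infDist x1 (frontier Ω) ≤ 2 * s := by
      refine (infDist_le_dist_of_mem hq).trans ?_
      rw [dist_comm]
      exact hx1q.le
    have hiv := hD.conn.isPreconnected.intermediate_value hx1 hx0
      (continuous_infDist_pt (frontier Ω)).continuousOn
    have hmem : 2 * s ∈ Icc (infDist x1 (frontier Ω)) (infDist x0 (frontier Ω)) := ⟨hle, by linarith⟩
    obtain ⟨x, hx, hxe⟩ := hiv hmem
    exact ⟨x, hx, hxe⟩

end Pool.Agent.H58.IC
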